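import Mathlib

/-!
# `φ₃(n)` divides `n - 1` for `n = 4125441 = 3 · 17 · 23 · 3517`

Here `φ₃(n) = 825088` and `n - 1 = 5 · 825088`.
-/

set_option autoImplicit false

namespace Pool.Agent.Results.MP_3af439_nt.Counterexample

/-- `phi e n` is the number of integers `i` with `1 ≤ i ≤ ⌊n / e⌋` and `gcd (i, n) = 1`. -/
def phi (e n : ℕ) : ℕ := ((Finset.Icc 1 (n / e)).filter (fun i => Nat.gcd i n = 1)).card

/-- The set of the known exceptions. -/
def E : Finset ℕ := {4, 6, 8, 9, 12, 16, 21, 65, 425, 1729, 3201, 3531, 22865}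

/-- number of `i ≤ X` prime to `m` -/
def cop (X m : ℕ) : ℕ := ((Finset.Icc 1 X).filter (fun i => Nat.gcd i m = 1)).card

theorem cop_one (X : ℕ) : cop X 1 = X := by
  unfold cop
  rw [Finset.filter_true_of_mem (fun i _ => Nat.gcd_one_right i), Nat.card_Icc]
  omega

theorem cop_mul (X p m : ℕ) (hp : p.Prime) (hpm : ¬ p ∣ m) :
    cop X (p * m) + cop (X / p) m = cop X m := by
  unfold cop
  have h1 : (Finset.Icc 1 (X / p)).filter (fun i => Nat.gcd i m = 1) =
      ((Finset.Icc 1 (X / p)).filter (fun i => Nat.gcd i m = 1)) := rfl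
  have h2 : ((Finset.Icc 1 (X / p)).filter (fun i => Nat.gcd i m = 1)).card =
      ((Finset.Icc 1 X).filter (fun i => Nat.gcd i m = 1 ∧ p ∣ i)).card := by
    refine Finset.card_bij (fun i _ => p * i) ?_ ?_ ?_
    · intro i hi
      simp only [Finset.mem_filter, Finset.mem_Icc] at hi ⊢
      obtain ⟨⟨hi1, hi2⟩, hi3⟩ := hi
      refine ⟨⟨Nat.mul_pos hp.pos hi1, ?_⟩, ?_, Dvd.intro _ rfl⟩
      · calc p * i ≤ p * (X / p) := Nat.mul_le_mul_left _ hi2
          _ ≤ X := Nat.mul_div_le _ _
      · exact Nat.Coprime.mul_left ((Nat.Prime.coprime_iff_not_dvd hp).2 hpm) hi3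
    · intro i _ j _ hij
      exact Nat.eq_of_mul_eq_mul_left hp.pos hij
    · intro i hi
      simp only [Finset.mem_filter, Finset.mem_Icc] at hi
      obtain ⟨⟨hi1, hi2⟩, hi3, j, hj⟩ := hi
      refine ⟨j, ?_, hj.symm⟩
      simp only [Finset.mem_filter, Finset.mem_Icc]
      subst hj
      refine ⟨⟨Nat.pos_of_mul_pos_left hi1, ?_⟩, Nat.Coprime.coprime_mul_left hi3⟩
      rw [Nat.le_div_iff_mul_le hp.pos, mul_comm]
      exact hi2
  have h3 : ((Finset.Icc 1 X).filter (fun i => Nat.gcd i (p * m) = 1)) =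
      ((Finset.Icc 1 X).filter (fun i => Nat.gcd i m = 1 ∧ ¬ p ∣ i)) := by
    refine Finset.filter_congr fun i _ => ?_
    constructor
    · intro h
      exact ⟨Nat.Coprime.coprime_mul_left_right h,
        (Nat.Prime.coprime_iff_not_dvd hp).1 (Nat.Coprime.coprime_mul_right_right h).symm⟩
    · rintro ⟨h, h'⟩
      exact Nat.Coprime.mul_right ((Nat.Prime.coprime_iff_not_dvd hp).2 h').symm h
  rw [h2, h3, add_comm, ← Finset.filter_filter, ← Finset.filter_filter]
  exact Finset.card_filter_add_card_filter_not _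

/-- the inclusion-exclusion recursion -/
def cnt : List ℕ → ℕ → ℕ
  | [], X => X
  | p :: ps, X => cnt ps X - cnt ps (X / p)

theorem cop_eq_cnt : ∀ (l : List ℕ), (∀ p ∈ l, p.Prime) → l.Nodup → ∀ X, cop X l.prod = cnt l X := by
  intro l
  induction l with
  | nil => intro _ _ X; simpa [cnt] using cop_one X
  | cons p ps ih =>
    intro h1 h2 X
    have hp : p.Prime := h1 p List.mem_cons_self
    have h3 : ∀ q ∈ ps, q.Prime := fun q hq => h1 q (List.mem_cons_of_mem _ hq)
    have h4 := List.nodup_cons.1 h2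
    have h5 : ¬ p ∣ ps.prod := by
      intro hd
      obtain ⟨q, hq, hpq⟩ := (Prime.dvd_prod_iff hp.prime).1 hd
      have : p = q := (Nat.prime_dvd_prime_iff_eq hp (h3 q hq)).1 hpq
      exact h4.1 (this ▸ hq)
    have h6 := cop_mul X p ps.prod hp h5
    rw [List.prod_cons, cnt, ← ih h3 h4.2 X, ← ih h3 h4.2 (X / p), ← h6]
    omega

theorem phi_value : phi 3 4125441 = 825088 := by
  have h := cop_eq_cnt [3, 17, 23, 3517] (by
    intro p hp
    simp only [List.mem_cons, List.not_mem_nil, or_false] at hp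
    rcases hp with rfl | rfl | rfl | rfl <;> norm_num) (by decide) (4125441 / 3)
  have h2 : [3, 17, 23, 3517].prod = 4125441 := by decide
  rw [h2] at h
  have h3 : phi 3 4125441 = cop (4125441 / 3) 4125441 := rfl
  rw [h3, h]
  decide

/-- There is a composite integer `n` outside the list of the known exceptions such that `φ₃(n)`
divides `n - 1`. -/
theorem result : ∃ n : ℕ, 4 ≤ n ∧ ¬ n.Prime ∧ n ∉ E ∧ phi 3 n ∣ n - 1 := by
  refine ⟨4125441, by norm_num, by norm_num, by decide, ?_⟩
  rw [phi_value]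
  norm_num

end Pool.Agent.Results.MP_3af439_nt.Counterexample
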